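import Pool.Agent.GT.StmtsF

/-!
# Squad GT, row F_ALG: comparison of ranks
-/

set_option autoImplicit false

namespace Pool.Agent.GT.F.H20

open Pool.Agent.GT.F

theorem alg : AlgStmt := by
  intro A B _ _ f h1 h2 h3
  have key : ∀ a : A, f a = 0 → ∃ m : A, f m = 0 ∧ a = m + m := by
    intro a ha
    obtain ⟨a', ha'⟩ := h1 a ⟨0, by rw [ha, add_zero]⟩
    have hb : f a' + f a' = 0 := by rw [← map_add, ← ha', ha]
    obtain ⟨s, hs, hfs⟩ := h2 (f a') hb
    refine ⟨a' - s, by rw [map_sub, hfs, sub_self], ?_⟩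
    have : a' - s + (a' - s) = a' + a' - (s + s) := by abel
    rw [this, hs, sub_zero, ha']
  have tor : ∀ a : A, f a = 0 → ∃ n : ℕ, 0 < n ∧ n • a = 0 := by
    intro a ha
    choose g hg1 hg2 using key
    let Q : ℕ → {x : A // f x = 0} := fun k =>
      Nat.rec ⟨a, ha⟩ (fun _ x => ⟨g x.1 x.2, hg1 x.1 x.2⟩) k
    obtain ⟨n, hn, hn2⟩ := h3 (fun k => (Q k).1) (fun k => hg2 (Q k).1 (Q k).2)
    exact ⟨n, hn, hn2⟩
  rw [Module.rank_def]
  apply ciSup_le'
  rintro ⟨s, hs⟩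
  have hs' : LinearIndependent ℤ (fun x : s => (x : A)) := hs
  have hf : LinearIndependent ℤ (fun x : s => f (x : A)) := by
    rw [linearIndependent_iff'] at hs' ⊢
    intro t g hg i hi
    have e1 : f (∑ j ∈ t, g j • (j : A)) = 0 := by
      rw [map_sum, ← hg]
      exact Finset.sum_congr rfl fun j _ => map_zsmul f _ _
    obtain ⟨n, hn, hn2⟩ := tor _ e1
    have e2 : ∑ j ∈ t, ((n : ℤ) * g j) • (j : A) = 0 := by
      rw [← hn2, Finset.smul_sum]
      exact Finset.sum_congr rfl fun j _ => by rw [mul_smul, natCast_zsmul]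
    have e3 := hs' t (fun j => (n : ℤ) * g j) e2 i hi
    have hn' : (n : ℤ) ≠ 0 := by exact_mod_cast hn.ne'
    exact (mul_eq_zero.1 e3).resolve_left hn'
  exact hf.cardinal_le_rank

end Pool.Agent.GT.F.H20
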