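import Pool.Agent.GT.StmtsB

/-!
# Squad GT, row B_DEN: counting lemma for bounded functions (telescoping)
-/

namespace Pool.Agent.GT.H20

open Finset Pool.Agent.GT

theorem den : DenStmt := by
  intro K X _ _ ε g h hgI hhI hg0 hg1 hh0 hh1 hcut
  have key : ∀ x : Fin K → X, (∏ j, g j x) - (∏ j, h j x) =
      ∑ j : Fin K, (g j x - h j x) *
        ∏ i ∈ univ.erase j, (if i < j then h i x else g i x) := by
    intro x
    have h1 := Finset.prod_sub_ordered (univ : Finset (Fin K)) (fun i => g i x)
      (fun i => g i x - h i x)
    have e1 : (∏ i : Fin K, (g i x - (g i x - h i x))) = ∏ i, h i x :=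
      Finset.prod_congr rfl fun i _ => by ring
    rw [e1] at h1
    rw [h1, sub_sub_cancel]
    refine Finset.sum_congr rfl fun j _ => ?_
    have e2 : (univ.erase j : Finset (Fin K)) =
        (univ.filter (fun i => i < j)) ∪ (univ.filter (fun i => j < i)) := by
      ext i
      simp only [mem_erase, mem_univ, and_true, mem_union, mem_filter, true_and]
      exact ⟨fun hne => lt_or_gt_of_ne hne, fun h => h.elim (fun h => h.ne) (fun h => h.ne')⟩
    have hd : Disjoint (univ.filter (fun i : Fin K => i < j)) (univ.filter (fun i => j < i)) := by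
      rw [Finset.disjoint_filter]
      intro i _ h1 h2
      exact absurd h1 (not_lt_of_gt h2)
    rw [e2, Finset.prod_union hd]
    have e3 : (∏ i ∈ univ.filter (fun i : Fin K => i < j), (if i < j then h i x else g i x)) =
        ∏ i ∈ univ.filter (fun i : Fin K => i < j), (g i x - (g i x - h i x)) :=
      Finset.prod_congr rfl fun i hi => by
        rw [if_pos (Finset.mem_filter.1 hi).2]; ring
    have e4 : (∏ i ∈ univ.filter (fun i : Fin K => j < i), (if i < j then h i x else g i x)) =
        ∏ i ∈ univ.filter (fun i : Fin K => j < i), g i x :=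
      Finset.prod_congr rfl fun i hi => by
        rw [if_neg (not_lt_of_gt (Finset.mem_filter.1 hi).2)]
    rw [e3, e4]
    ring
  rw [← av_sub]
  have e5 : (fun x : Fin K → X => (∏ j, g j x) - (∏ j, h j x)) =
      fun x => ∑ j : Fin K, (g j x - h j x) *
        ∏ i ∈ univ.erase j, (if i < j then h i x else g i x) := funext key
  rw [e5, av_sum]
  refine (Finset.abs_sum_le_sum_abs _ _).trans ?_
  have hb : ∀ j : Fin K, |av (fun x : Fin K → X => (g j x - h j x) *
      ∏ i ∈ univ.erase j, (if i < j then h i x else g i x))| ≤ ε := by
    intro j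
    refine hcut j (fun i x => if i < j then h i x else g i x) ?_ ?_
    · intro i x s
      by_cases hi : i < j
      · simp only [if_pos hi]; exact hhI i x s
      · simp only [if_neg hi]; exact hgI i x s
    · intro i x
      by_cases hi : i < j
      · simp only [if_pos hi]; rw [abs_of_nonneg (hh0 i x)]; exact hh1 i x
      · simp only [if_neg hi]; rw [abs_of_nonneg (hg0 i x)]; exact hg1 i x
  refine (Finset.sum_le_sum fun j _ => hb j).trans ?_
  simp

end Pool.Agent.GT.H20
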