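import Pool.Agent.GT.StmtsC

/-!
# Squad GT, row C_EXB: the bound of the sum over `U`
-/

namespace Pool.Agent.GT.H20

open Finset Pool.Agent.GT

theorem tU_sub {σ : Type} [DecidableEq σ] {P : Finset ℕ} (U : ↥P → Finset σ) (s : σ) :
    tU U s ⊆ P := by
  intro x hx
  unfold tU at hx
  rw [Finset.mem_map] at hx
  obtain ⟨a, _, rfl⟩ := hx
  exact a.2

theorem tU_card {σ : Type} [Fintype σ] [DecidableEq σ] {P : Finset ℕ} (U : ↥P → Finset σ) :
    ∑ s, (tU U s).card = ∑ p : ↥P, (U p).card := by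
  have h1 : ∀ s, (tU U s).card = ∑ p : ↥P, (if s ∈ U p then 1 else 0) := by
    intro s
    unfold tU
    rw [Finset.card_map, Finset.card_filter]
  have h2 : ∀ p : ↥P, (U p).card = ∑ s, (if s ∈ U p then 1 else 0) := by
    intro p
    rw [← Finset.card_filter]
    congr 1
    ext s
    simp
  rw [Finset.sum_congr rfl fun s _ => h1 s, Finset.sum_comm]
  exact Finset.sum_congr rfl fun p _ => (h2 p).symm

theorem exb (ssb : SsbStmt) (lvc : LvcStmt) : ExbStmt := by
  intro σ _ _ P R β hP hR hβ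
  have hG1 := (lvc P R hP hR).2.1
  have hG0 : 0 < GG P R := by linarith
  have hS : ∀ t ⊆ P, |GG P R * SS P R t| ≤ 10 ^ t.card := by
    intro t ht
    have h := (ssb P R t hP hR ht).1
    rw [abs_mul, abs_of_pos hG0]
    calc GG P R * |SS P R t| ≤ GG P R * (10 ^ t.card / GG P R) :=
          mul_le_mul_of_nonneg_left h hG0.le
      _ = 10 ^ t.card := by field_simp
  have hS0 : GG P R * SS P R ∅ = 1 := by
    rw [(ssb P R ∅ hP hR (Finset.empty_subset _)).2]
    field_simp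
  obtain ⟨U₀, hU₀⟩ : ∃ U₀ : ↥P → Finset σ, U₀ = fun _ => ∅ := ⟨_, rfl⟩
  obtain ⟨F, hF⟩ : ∃ F : (↥P → Finset σ) → ℝ,
      F = fun U => (∏ p : ↥P, β p (U p)) * ∏ s, (GG P R * SS P R (tU U s)) := ⟨_, rfl⟩
  obtain ⟨H, hH⟩ : ∃ H : (↥P → Finset σ) → ℝ,
      H = fun U => ∏ p : ↥P, (|β p (U p)| * 10 ^ (U p).card) := ⟨_, rfl⟩
  have hF0 : F U₀ = 1 := by
    rw [hF, hU₀]
    have e1 : (∏ p : ↥P, β p ∅) = 1 :=
      Finset.prod_eq_one fun p _ => (hβ p p.2).1
    have e2 : ∀ s, tU (fun _ : ↥P => (∅ : Finset σ)) s = ∅ := by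
      intro s
      unfold tU
      simp
    simp only [e1, e2, hS0, Finset.prod_const_one, one_mul]
  have hH0 : H U₀ = 1 := by
    rw [hH, hU₀]
    refine Finset.prod_eq_one fun p _ => ?_
    rw [(hβ p p.2).1]
    simp
  have hFH : ∀ U, |F U| ≤ H U := by
    intro U
    have eF : |F U| = (∏ p : ↥P, |β p (U p)|) * ∏ s, |GG P R * SS P R (tU U s)| := by
      rw [hF]
      simp only []
      rw [abs_mul, Finset.abs_prod, Finset.abs_prod]
    have eH : H U = (∏ p : ↥P, |β p (U p)|) * ∏ p : ↥P, (10 : ℝ) ^ (U p).card := by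
      rw [hH]
      simp only []
      rw [Finset.prod_mul_distrib]
    rw [eF, eH]
    have hn : (0 : ℝ) ≤ ∏ p : ↥P, |β p (U p)| := Finset.prod_nonneg fun p _ => abs_nonneg _
    refine mul_le_mul_of_nonneg_left ?_ hn
    have h1 : ∀ s, |GG P R * SS P R (tU U s)| ≤ 10 ^ (tU U s).card := by
      intro s
      exact hS _ (tU_sub U s)
    calc (∏ s, |GG P R * SS P R (tU U s)|) ≤ ∏ s, (10 : ℝ) ^ (tU U s).card :=
          Finset.prod_le_prod (fun s _ => abs_nonneg _)
            fun s _ => h1 s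
      _ = (10 : ℝ) ^ (∑ s, (tU U s).card) := by rw [Finset.prod_pow_eq_pow_sum]
      _ = (10 : ℝ) ^ (∑ p : ↥P, (U p).card) := by rw [tU_card]
      _ = ∏ p : ↥P, (10 : ℝ) ^ (U p).card := by rw [Finset.prod_pow_eq_pow_sum]
  have hsumH : ∑ U, H U = ∏ p ∈ P, ∑ V : Finset σ, (|β p V| * 10 ^ V.card) := by
    rw [← Finset.prod_coe_sort P (fun p => ∑ V : Finset σ, (|β p V| * 10 ^ V.card)),
      Finset.prod_univ_sum, Fintype.piFinset_univ, hH]
  have hVb : ∀ p ∈ P, ∑ V : Finset σ, (|β p V| * 10 ^ V.card) ≤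
      1 + 40 ^ Fintype.card σ / (p : ℝ) ^ 2 := by
    intro p hp
    obtain ⟨hb0, hb1, hb2⟩ := hβ p hp
    have hp0 : (0 : ℝ) < (p : ℝ) ^ 2 := by
      have : 0 < p := (hP p hp).pos
      positivity
    have h1 : ∀ V : Finset σ, |β p V| * 10 ^ V.card ≤
        (if V = ∅ then 1 else 0) + 20 ^ V.card / (p : ℝ) ^ 2 := by
      intro V
      by_cases hV : V = ∅
      · subst hV
        rw [hb0]
        simp
      · rw [if_neg hV, zero_add]
        rcases Nat.lt_or_ge V.card 2 with h2 | h2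
        · have h3 : V.card = 1 := by
            have : 0 < V.card := Finset.card_pos.2 (Finset.nonempty_iff_ne_empty.2 hV)
            omega
          rw [hb1 V h3, abs_zero, zero_mul]
          positivity
        · calc |β p V| * 10 ^ V.card ≤ (2 ^ V.card / (p : ℝ) ^ 2) * 10 ^ V.card :=
                mul_le_mul_of_nonneg_right (hb2 V h2) (by positivity)
            _ = 20 ^ V.card / (p : ℝ) ^ 2 := by
                rw [show (20 : ℝ) = 2 * 10 by norm_num, mul_pow]
                ring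
    have h2 : ∑ V : Finset σ, (20 : ℝ) ^ V.card = 21 ^ Fintype.card σ := by
      have h := Fintype.sum_pow_mul_eq_add_pow σ (20 : ℝ) 1
      simp only [one_pow, mul_one] at h
      rw [h]
      norm_num
    calc ∑ V : Finset σ, (|β p V| * 10 ^ V.card)
        ≤ ∑ V : Finset σ, ((if V = ∅ then 1 else 0) + 20 ^ V.card / (p : ℝ) ^ 2) :=
          Finset.sum_le_sum fun V _ => h1 V
      _ = 1 + 21 ^ Fintype.card σ / (p : ℝ) ^ 2 := by
          rw [Finset.sum_add_distrib, Finset.sum_ite_eq' univ (∅ : Finset σ) (fun _ => (1 : ℝ)),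
            if_pos (Finset.mem_univ _), ← Finset.sum_div, h2]
      _ ≤ 1 + 40 ^ Fintype.card σ / (p : ℝ) ^ 2 := by
          have : (21 : ℝ) ^ Fintype.card σ ≤ 40 ^ Fintype.card σ :=
            pow_le_pow_left₀ (by norm_num) (by norm_num) _
          have := div_le_div_of_nonneg_right this hp0.le
          linarith
  have hsplitF : ∑ U, F U = F U₀ + ∑ U ∈ univ.erase U₀, F U :=
    (Finset.add_sum_erase univ F (Finset.mem_univ U₀)).symm
  have hsplitH : ∑ U, H U = H U₀ + ∑ U ∈ univ.erase U₀, H U :=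
    (Finset.add_sum_erase univ H (Finset.mem_univ U₀)).symm
  have e0 : (∑ U : ↥P → Finset σ, (∏ p : ↥P, β p (U p)) * ∏ s, (GG P R * SS P R (tU U s))) =
      ∑ U, F U := by rw [hF]
  rw [e0]
  calc |(∑ U, F U) - 1| = |∑ U ∈ univ.erase U₀, F U| := by
        rw [hsplitF, hF0, add_sub_cancel_left]
    _ ≤ ∑ U ∈ univ.erase U₀, |F U| := Finset.abs_sum_le_sum_abs _ _
    _ ≤ ∑ U ∈ univ.erase U₀, H U := Finset.sum_le_sum fun U _ => hFH U
    _ = (∑ U, H U) - 1 := by rw [hsplitH, hH0, add_sub_cancel_left]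
    _ = (∏ p ∈ P, ∑ V : Finset σ, (|β p V| * 10 ^ V.card)) - 1 := by rw [hsumH]
    _ ≤ ∏ p ∈ P, (1 + 40 ^ Fintype.card σ / (p : ℝ) ^ 2) - 1 := by
        refine sub_le_sub_right (Finset.prod_le_prod (fun p _ => ?_) hVb) 1
        exact Finset.sum_nonneg fun V _ => mul_nonneg (abs_nonneg _) (by positivity)

end Pool.Agent.GT.H20
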