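import Pool.Agent.GT.StmtsD

/-!
# Squad GT, row D_COR: the class is trivial
-/

set_option autoImplicit false

namespace Pool.Agent.GT.D.H20

open Pool.Agent.GT.D

theorem cor (ι : Type) [Fintype ι] [DecidableEq ι] (syp : SypStmt ι) (nwp : NwpStmt ι)
    (loc : LocStmt ι) (sqr : SqrStmt) : CorStmt ι := by
  intro a s r bl m st p h hPk x w hT hr i
  obtain ⟨h1, h2, h3, _⟩ := syp a s r bl m st p h hPk x w hT hr
  have h4 := nwp a s r bl m st p h hPk x w hT hr
  obtain ⟨_, _, h5, _⟩ := loc a s r bl m st p h hPk x w hT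
  refine sqr _ (hT.ne i) (h1 i) ?_
  intro q hq
  by_cases hq2 : q = 2
  · rw [hq2]; exact h2 i
  by_cases hqr : q = r
  · rw [hqr]; exact hr i
  by_cases hqS : q ∈ S0 a ∪ S1 a
  · exact h3 q hqS i
  by_cases hqp : ∃ l, q = p l
  · obtain ⟨l, hl⟩ := hqp
    rw [hl]; exact h4 l i
  · exact h5 q hq hq2 hqr hqS (fun l hl => hqp ⟨l, hl⟩) i

end Pool.Agent.GT.D.H20
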